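import Mathlib
import Pool.Agent.Q43.EX.Fin
import Pool.Agent.W66.ST

set_option autoImplicit false

/-!
# Exceptional amplitudes in the Lenstra-Pomerance-Wagstaff model in base ten

For real `β > 0` and a prime `p` let `W β p` be the `p`-rough part (the product, with multiplicity, of
the prime factors larger than `p`) of the largest integer below `β * 10 ^ p`; for `β = 1 / 9` this is
the decimal repunit `R_p`, for every prime `p ≠ 3`.  Let `M β n` be the number of primes `p ≤ n` for
which `W β p` is prime.  For almost every `β` it is known that `M β n / log n` tends to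
`e ^ γ / log 10`.  We prove that the exceptional set is large in the sense of category and in the sense
of dimension, and that on it the number of primes can be as large as possible.  For every function `f`
tending to infinity, the set of the `β` for which `M β n / π (n)` has upper limit `1` and for every
`ε > 0` one has `M β n < ε f n` for infinitely many `n` is comeager.  For all `0 ≤ δ < 1` and in every interval, the set of the `β` for
which the upper limit of `M β n / π (n)` is at least `δ` has Hausdorff dimension at least `1 - δ`.
-/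

namespace Pool.Agent.Results.MP_adea1b_nt.ExceptionalAmplitudes

open Filter Topology MeasureTheory

/-- The product, with multiplicity, of the prime factors of `m` that are larger than `p`. -/
def roughPart (p m : ℕ) : ℕ := (m.primeFactorsList.filter (fun r => p < r)).prod

/-- The `p`-rough part of the largest integer below `β * 10 ^ p`. -/
noncomputable def W (β : ℝ) (p : ℕ) : ℕ := roughPart p (⌈β * 10 ^ p⌉₊ - 1)

open Classical in
/-- The number of primes `p ≤ n` for which `W β p` is prime. -/
noncomputable def M (β : ℝ) (n : ℕ) : ℕ :=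
  ((Finset.range (n + 1)).filter (fun p => p.Prime ∧ (W β p).Prime)).card

lemma M_eq (β : ℝ) (n : ℕ) : M β n = Pool.Agent.Q43.EX.Mc (Pool.Agent.Q43.EX.uA 10 β) n := by
  classical
  unfold M Pool.Agent.Q43.EX.Mc
  congr 1

lemma W_special {p : ℕ} (hp : p.Prime) (h3 : p ≠ 3) : W (1 / 9) p = ∑ i ∈ Finset.range p, 10 ^ i := by
  have h := Pool.Agent.W66S.repunit_special (b := 10) (by norm_num) hp (by
    intro h
    have h2 : p ∣ 3 := by
      have : p ∣ 3 ^ 2 := by simpa using h
      exact hp.dvd_of_dvd_pow this
    exact h3 ((Nat.prime_dvd_prime_iff_eq hp Nat.prime_three).1 h2))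
  have e1 : ⌈(1 / (((10 : ℕ) : ℝ) - 1)) * ((10 : ℕ) : ℝ) ^ p⌉₊ = ⌈(1 / 9 : ℝ) * 10 ^ p⌉₊ := by
    congr 1
    push_cast
    norm_num
  rw [e1] at h
  exact h

/-- The values at `β = 1 / 9` are the repunits.  For every function `f` tending to infinity, for
comeagerly many amplitudes the number of exponents is infinitely often almost `π (n)` and infinitely
often less than every multiple of `f n`.  The set of the amplitudes in an interval for which the
exponents have upper density at least `δ` in the primes has dimension at least `1 - δ`. -/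
theorem result :
    (∀ p : ℕ, p.Prime → p ≠ 3 → W (1 / 9) p = ∑ i ∈ Finset.range p, 10 ^ i) ∧
    (∀ f : ℕ → ℝ, Tendsto f atTop atTop →
      {β : ℝ | 0 < β → limsup (fun n : ℕ => (M β n : ℝ) / Nat.primeCounting n) atTop = 1 ∧
        ∀ ε : ℝ, 0 < ε → ∃ᶠ n in atTop, (M β n : ℝ) < ε * f n} ∈ residual ℝ) ∧
    (∀ δ : ℝ, 0 ≤ δ → δ < 1 → ∀ s t : ℝ, 0 ≤ s → s < t →
      ENNReal.ofReal (1 - δ) ≤ dimH {β : ℝ | β ∈ Set.Ioo s t ∧
        δ ≤ limsup (fun n : ℕ => (M β n : ℝ) / Nat.primeCounting n) atTop}) := by
  simp only [M_eq]
  exact ⟨fun p hp h3 => W_special hp h3, fun f hf => Pool.Agent.Q43.EX.generic_A (by norm_num) hf,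
    fun δ h0 h1 s t hs hst => Pool.Agent.Q43.EX.dim_A (by norm_num) h0 h1 hs hst⟩

end Pool.Agent.Results.MP_adea1b_nt.ExceptionalAmplitudes
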