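import Mathlib
import Pool.Agent.Q43.BA.Low
import Pool.Agent.W66.LU

set_option autoImplicit false

/-!
# Decimal repunits and the last decimal digits of almost every 10-adic unit

For a sequence `d` of decimal digits (a 10-adic integer with the digits `d 0`, `d 1`, ... read from
the right) and a prime `p` let `W d p` be the `p`-rough part (the product, with multiplicity, of the
prime factors larger than `p`) of the integer with the last `p` digits `d (p - 1) ... d 1 d 0`.  For
the sequence `... 111` this is the repunit `R_p` itself, for every prime `p ≠ 3`.  For a set `S` let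
`M S d n` be the number of primes `p ≤ n` in `S` with `W d p` prime, and let `V S n` be the sum of
`log p / p` over the primes `p ≤ n` in `S`.  The digits are independent and uniform.  We prove that
for almost every `d` with `d 0 ∈ {1, 3, 7, 9}` the number of primes `p ≤ n` with `W d p` prime is
`(e ^ γ / log 10) log n + O((log n) ^ (1/2) (log log n) ^ (5/2))`; that for every set `S` and almost
every such `d` there are infinitely many such primes `p` in `S` if and only if `V S n` is unbounded;
and that in this case `M S d n = (e ^ γ / log 10) V S n + O((V L) ^ (1/2) (log (V L)) ^ 2)` with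
`V = V S n` and `L = log log n`.
-/

namespace Pool.Agent.Results.MP_adea1b_nt.LastDigits

open Filter Topology MeasureTheory Asymptotics

/-- The product, with multiplicity, of the prime factors of `m` that are larger than `p`. -/
def roughPart (p m : ℕ) : ℕ := (m.primeFactorsList.filter (fun r => p < r)).prod

/-- The integer with the last `p` decimal digits `d (p - 1) ... d 1 d 0`. -/
def D (d : ℕ → Fin 10) (p : ℕ) : ℕ := ∑ i ∈ Finset.range p, (d i : ℕ) * 10 ^ i

/-- The `p`-rough part of the integer with the last `p` decimal digits of `d`. -/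
def W (d : ℕ → Fin 10) (p : ℕ) : ℕ := roughPart p (D d p)

open Classical in
/-- The number of primes `p ≤ n` in the set `S` for which `W d p` is prime. -/
noncomputable def M (S : Set ℕ) (d : ℕ → Fin 10) (n : ℕ) : ℕ :=
  ((Finset.range (n + 1)).filter (fun p => p.Prime ∧ p ∈ S ∧ (W d p).Prime)).card

open Classical in
/-- The sum of `log p / p` over the primes `p ≤ n` in the set `S`. -/
noncomputable def V (S : Set ℕ) (n : ℕ) : ℝ :=
  ∑ p ∈ (Finset.range (n + 1)).filter (fun p => p.Prime ∧ p ∈ S), Real.log p / p

/-- The law with error term for all primes and for the primes in `S`, and the dichotomy. -/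
structure Law (d : ℕ → Fin 10) (S : Set ℕ) : Prop where
  /-- the number of all primes `p ≤ n` with `W d p` prime -/
  all : (fun n : ℕ => (M Set.univ d n : ℝ) -
      Real.exp Real.eulerMascheroniConstant / Real.log 10 * Real.log n) =O[atTop]
    (fun n : ℕ => Real.sqrt (Real.log n) * (Real.log (Real.log n)) ^ ((5 : ℝ) / 2))
  /-- the number of primes `p ≤ n` in `S` with `W d p` prime -/
  sets : Tendsto (V S) atTop atTop → (fun n : ℕ => (M S d n : ℝ) -
      Real.exp Real.eulerMascheroniConstant / Real.log 10 * V S n) =O[atTop]
    (fun n : ℕ => Real.sqrt (V S n * Real.log (Real.log n)) *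
      (Real.log (V S n * Real.log (Real.log n))) ^ 2)
  /-- there are infinitely many in `S` if and only if the weight of `S` is infinite -/
  dichotomy : {p : ℕ | p.Prime ∧ p ∈ S ∧ (W d p).Prime}.Infinite ↔ Tendsto (V S) atTop atTop

/-- The distribution of a sequence of independent uniform decimal digits. -/
noncomputable def digits : Measure (ℕ → Fin 10) :=
  Measure.infinitePi (fun _ : ℕ => ProbabilityTheory.uniformOn (Set.univ : Set (Fin 10)))

lemma V_eq (S : Set ℕ) : V S = Pool.Agent.TH888.R.VS S := by
  classical
  funext n
  unfold V Pool.Agent.TH888.R.VS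
  rw [Finset.sum_filter]
  refine Finset.sum_congr rfl fun p _ => ?_
  by_cases h : p.Prime ∧ p ∈ S
  · rw [if_pos h, if_pos ⟨h.2, h.1⟩]
    rfl
  · rw [if_neg h, if_neg fun h1 => h ⟨h1.2, h1.1⟩]

lemma M_eq (d : ℕ → Fin 10) (S : Set ℕ) (n : ℕ) :
    M S d n = Pool.Agent.TH888.R.cS S (fun p => Pool.Agent.W66L.dsum 10 p d) n := by
  classical
  unfold M Pool.Agent.TH888.R.cS
  rfl

/-- the law from the library statement -/
lemma law_of {d : ℕ → Fin 10} {S : Set ℕ}
    (h1 : Pool.Agent.TH888.R.Pt (fun p => Pool.Agent.W66L.dsum 10 p d)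
      (Real.exp Real.eulerMascheroniConstant / Real.log 10) Set.univ)
    (h2 : Pool.Agent.TH888.R.Pt (fun p => Pool.Agent.W66L.dsum 10 p d)
      (Real.exp Real.eulerMascheroniConstant / Real.log 10) S) : Law d S := by
  refine ⟨?_, fun hS => ?_, ?_⟩
  · obtain ⟨B, hB, h⟩ := h1.law Pool.Agent.TH888.R.VS_univ_tendsto
    simp only [M_eq]
    exact Pool.Agent.TH888.R.bigO_all hB h
  · rw [V_eq] at hS ⊢
    obtain ⟨B, hB, h⟩ := h2.law hS
    simp only [M_eq]
    exact Pool.Agent.TH888.R.bigO_set hB hS h
  · rw [V_eq]
    constructor
    · intro hi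
      by_contra hn
      exact hi (h2.fin hn)
    · exact h2.inf

/-- The values at the sequence `... 111` are the repunits, and for every set `S` almost every
sequence of digits with last digit prime to `10` obeys the law with a square root error term and the
dichotomy. -/
theorem result :
    (∀ p : ℕ, p.Prime → p ≠ 3 → W (fun _ => 1) p = ∑ i ∈ Finset.range p, 10 ^ i) ∧
    (∀ S : Set ℕ, ∀ᵐ d ∂digits, Nat.Coprime (d 0 : ℕ) 10 → Law d S) := by
  refine ⟨fun p hp h3 => ?_, fun S => ?_⟩
  · have h1 : D (fun _ => 1) p = ∑ i ∈ Finset.range p, 10 ^ i := by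
      unfold D
      refine Finset.sum_congr rfl fun i _ => ?_
      have : (((1 : Fin 10)) : ℕ) = 1 := rfl
      rw [this, one_mul]
    have h2 : W (fun _ => 1) p = Pool.Agent.H305R2.roughPart p (D (fun _ => 1) p) := rfl
    rw [h2, h1]
    refine Pool.Agent.W66L.rough_repunit (b := 10) (by norm_num) hp fun h => h3 ?_
    have h4 : p ∣ 3 := by
      have : p ∣ 3 ^ 2 := by simpa using h
      exact hp.dvd_of_dvd_pow this
    exact (Nat.prime_dvd_prime_iff_eq hp Nat.prime_three).1 h4
  · have h := fun S => Pool.Agent.Q43.BA.pt_full (μ := Pool.Agent.W66L.digitMeasure 10)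
      (show 2 ≤ 10 by norm_num) (Pool.Agent.W66L.full_digits 10) S
    have hm : digits = Pool.Agent.W66L.digitMeasure 10 := rfl
    rw [hm]
    filter_upwards [h Set.univ, h S] with d h1 h2 hu
    have hc : (Pool.Agent.W66L.dsum 10 1 d).Coprime 10 := by
      unfold Pool.Agent.W66L.dsum
      simpa using hu
    have h3 := h1 hc
    have h4 := h2 hc
    simp only [Nat.cast_ofNat] at h3 h4
    exact law_of h3 h4

end Pool.Agent.Results.MP_adea1b_nt.LastDigits
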