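import Mathlib
import Pool.Agent.Q43.PR.Cons
import Pool.Agent.W66.ST

set_option autoImplicit false

/-!
# Repulsion of the exponents in the Lenstra-Pomerance-Wagstaff model in base ten

For real `β > 0` and a prime `p` let `W β p` be the `p`-rough part (the product, with multiplicity, of
the prime factors larger than `p`) of the largest integer below `β * 10 ^ p`.  For `β = 1 / 9` this is
the decimal repunit `R_p` itself, for every prime `p ≠ 3`.  Give a pair of primes `p < q` the weight
`(log p / p) (log q / q)`.  We prove that for every set `R` of pairs of primes with finite total weight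
and for almost every `β > 0` only finitely many pairs `(p, q)` in `R` are such that `W β p` and `W β q`
are different primes.  (The values `W β p` and `W β q` can be the same prime, for instance if the
decimal digits of `β` behind the place `p` are zeros up to the place `q`; this does not occur for
`β = 1 / 9`.)  In particular for almost every `β` and every `ε > 0` there are only finitely many pairs
`p < q ≤ p + p / (log p) ^ (1 + ε)` with this property, and for every function `φ`, such as
`φ p = p + 2`, `φ p = 2 p + 1` or `φ p = 2 ^ p - 1`, only finitely many pairs `(p, φ p)`.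
-/

namespace Pool.Agent.Results.MP_adea1b_nt.RepulsionOfExponents

open Filter Topology MeasureTheory

/-- The product, with multiplicity, of the prime factors of `m` that are larger than `p`. -/
def roughPart (p m : ℕ) : ℕ := (m.primeFactorsList.filter (fun r => p < r)).prod

/-- The `p`-rough part of the largest integer below `β * 10 ^ p`. -/
noncomputable def W (β : ℝ) (p : ℕ) : ℕ := roughPart p (⌈β * 10 ^ p⌉₊ - 1)

lemma W_eq (β : ℝ) (p : ℕ) : W β p = Pool.Agent.Q43.PR.val 10 β p := by
  unfold W Pool.Agent.Q43.PR.val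
  push_cast
  rfl

lemma W_special {p : ℕ} (hp : p.Prime) (h3 : p ≠ 3) : W (1 / 9) p = ∑ i ∈ Finset.range p, 10 ^ i := by
  have h := Pool.Agent.W66S.repunit_special (b := 10) (by norm_num) hp (by
    intro h
    have h2 : p ∣ 3 := by
      have : p ∣ 3 ^ 2 := by simpa using h
      exact hp.dvd_of_dvd_pow this
    exact h3 ((Nat.prime_dvd_prime_iff_eq hp Nat.prime_three).1 h2))
  have e1 : ⌈(1 / (((10 : ℕ) : ℝ) - 1)) * ((10 : ℕ) : ℝ) ^ p⌉₊ = ⌈(1 / 9 : ℝ) * 10 ^ p⌉₊ := by
    congr 1
    push_cast
    norm_num
  rw [e1] at h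
  exact h

/-- The values at `β = 1 / 9` are the repunits.  For almost every amplitude, with the base `10`
fixed, only finitely many pairs of levels from a set of pairs of finite weight have different prime
values; in particular the different prime values repel each other, and only finitely many pairs
`(p, φ p)` have different prime values. -/
theorem result :
    (∀ p : ℕ, p.Prime → p ≠ 3 → W (1 / 9) p = ∑ i ∈ Finset.range p, 10 ^ i) ∧
    (∀ R : Set (ℕ × ℕ), (∀ x ∈ R, x.1.Prime ∧ x.2.Prime ∧ x.1 < x.2) →
      Summable (fun x : R => Real.log x.1.1 / x.1.1 * (Real.log x.1.2 / x.1.2)) →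
      ∀ᵐ β : ℝ, 0 < β → {x ∈ R | (W β x.1).Prime ∧ (W β x.2).Prime ∧ W β x.1 ≠ W β x.2}.Finite) ∧
    (∀ᵐ β : ℝ, 0 < β → ∀ ε : ℝ, 0 < ε → ∃ P : ℕ, ∀ p q : ℕ, P ≤ p → p < q → p.Prime → q.Prime →
      (W β p).Prime → (W β q).Prime → W β p ≠ W β q → (p : ℝ) + p / Real.log p ^ (1 + ε) < q) ∧
    (∀ φ : ℕ → ℕ, ∀ᵐ β : ℝ, 0 < β → {p : ℕ | p.Prime ∧ (φ p).Prime ∧ p < φ p ∧ (W β p).Prime ∧
      (W β (φ p)).Prime ∧ W β p ≠ W β (φ p)}.Finite) := by
  refine ⟨fun p hp h3 => W_special hp h3, ?_⟩
  simp only [W_eq]
  refine ⟨fun R hR hs => ?_, Pool.Agent.Q43.PR.ae_gaps (by norm_num), fun φ =>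
    Pool.Agent.Q43.PR.ae_graph (by norm_num) φ⟩
  exact Pool.Agent.Q43.PR.ae_pairs (by norm_num) R
    (fun x hx => ⟨(hR x hx).1.two_le, (hR x hx).2.2⟩) hs

end Pool.Agent.Results.MP_adea1b_nt.RepulsionOfExponents
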