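import Mathlib
import Pool.Agent.Q43.UN.Fin
import Pool.Agent.W66.ST

set_option autoImplicit false

/-!
# Decimal repunits: the law in all residue classes, uniformly in the modulus

For a sequence `s` of positive integers and a prime `p` let `W s p` be the `p`-rough part (the
product, with multiplicity, of the prime factors larger than `p`) of `s p`, and let `M s q a n` be the
number of primes `p ≤ n` with `p ≡ a (mod q)` and `W s p` prime.  We consider the sequence of the
largest integers below `β * 10 ^ p` (base ten, real amplitude `β > 0`) and the sequence of the integer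
parts of `(x ^ p - 1) / (x - 1)` (real base `x > 1`).  For `β = 1 / 9` and for `x = 10` these are the
decimal repunits `R_p`, and `W s p = R_p` for all primes `p ≠ 3`.  We prove for almost every `β > 0`,
with `c = e ^ γ / log 10`, and for almost every `x > 1`, with `c = e ^ γ / log x`: for every `ε > 0`,
for ALL moduli `q`, all classes `a` prime to `q` and all `n` simultaneously,
`M s q a n = c log n / φ (q) + O (q ^ (1/2 + ε) (log n) ^ (1/2 + ε))`, with one constant.  The main term
dominates for `q ≤ (log n) ^ (1/3 - δ)`.  In particular, for all large `q` every class prime to `q`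
contains a prime `p ≤ exp (q ^ (3 + ε))` with `W s p` prime.
-/

namespace Pool.Agent.Results.MP_adea1b_nt.UniformProgressions

open Filter Topology MeasureTheory

/-- The product, with multiplicity, of the prime factors of `m` that are larger than `p`. -/
def roughPart (p m : ℕ) : ℕ := (m.primeFactorsList.filter (fun r => p < r)).prod

/-- The `p`-rough part of the term with the index `p`. -/
def W (s : ℕ → ℕ) (p : ℕ) : ℕ := roughPart p (s p)

/-- The largest integer below `β * 10 ^ p`. -/
noncomputable def amp (β : ℝ) (p : ℕ) : ℕ := ⌈β * 10 ^ p⌉₊ - 1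

/-- The integer part of `(x ^ p - 1) / (x - 1)`. -/
noncomputable def base (x : ℝ) (p : ℕ) : ℕ := ⌊(x ^ p - 1) / (x - 1)⌋₊

open Classical in
/-- The number of primes `p ≤ n` with `p ≡ a (mod q)` for which `W s p` is prime. -/
noncomputable def M (s : ℕ → ℕ) (q a n : ℕ) : ℕ :=
  ((Finset.range (n + 1)).filter (fun p => p.Prime ∧ p ≡ a [MOD q] ∧ (W s p).Prime)).card

/-- The law with the constant `c` in all residue classes, and the bound for the least exponent in a
residue class. -/
structure Law (s : ℕ → ℕ) (c : ℝ) : Prop where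
  /-- the number of the exponents in a residue class, uniformly in the modulus -/
  uniform : ∀ ε : ℝ, 0 < ε → ∃ B : ℝ, ∀ n : ℕ, 3 ≤ n → ∀ q a : ℕ, 1 ≤ q → a.Coprime q →
    |(M s q a n : ℝ) - c * (Real.log n / Nat.totient q)| ≤
      B * ((q : ℝ) ^ (1 / 2 + ε) * Real.log n ^ (1 / 2 + ε))
  /-- the least exponent in a residue class -/
  least : ∀ ε : ℝ, 0 < ε → ∃ Q : ℕ, ∀ q a : ℕ, Q ≤ q → a.Coprime q →
    ∃ p : ℕ, p.Prime ∧ p ≡ a [MOD q] ∧ (W s p).Prime ∧ (p : ℝ) ≤ Real.exp ((q : ℝ) ^ (3 + ε))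

lemma M_eq (s : ℕ → ℕ) (q a n : ℕ) : M s q a n = Pool.Agent.TH888.R.cS (Pool.Agent.Q43.UN.Cl q a) s n := by
  classical
  unfold M Pool.Agent.TH888.R.cS
  congr 1
  ext p
  simp only [Finset.mem_filter]
  rfl

lemma law_of {s : ℕ → ℕ} {c : ℝ} (hc : 0 < c) (h : Pool.Agent.Q43.UN.UPt s c) : Law s c := by
  refine ⟨fun ε hε => ?_, fun ε hε => h.least hc hε⟩
  obtain ⟨B, _, hB⟩ := h ε hε
  simp only [M_eq]
  exact ⟨B, hB⟩

lemma W_amp {p : ℕ} (hp : p.Prime) (h3 : p ≠ 3) :
    W (amp (1 / 9)) p = ∑ i ∈ Finset.range p, 10 ^ i := by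
  have h := Pool.Agent.W66S.repunit_special (b := 10) (by norm_num) hp (by
    intro h
    have h2 : p ∣ 3 := by
      have : p ∣ 3 ^ 2 := by simpa using h
      exact hp.dvd_of_dvd_pow this
    exact h3 ((Nat.prime_dvd_prime_iff_eq hp Nat.prime_three).1 h2))
  have e1 : ⌈(1 / (((10 : ℕ) : ℝ) - 1)) * ((10 : ℕ) : ℝ) ^ p⌉₊ = ⌈(1 / 9 : ℝ) * 10 ^ p⌉₊ := by
    congr 1
    push_cast
    norm_num
  rw [e1] at h
  exact h

lemma rep_real (p : ℕ) : ((∑ i ∈ Finset.range p, 10 ^ i : ℕ) : ℝ) = (10 ^ p - 1) / (10 - 1) := by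
  push_cast
  exact geom_sum_eq (by norm_num) p

lemma base_ten (p : ℕ) : base 10 p = ∑ i ∈ Finset.range p, 10 ^ i := by
  unfold base
  rw [← rep_real, Nat.floor_natCast]

lemma amp_ninth (p : ℕ) : amp (1 / 9) p = ∑ i ∈ Finset.range p, 10 ^ i := by
  unfold amp
  have h := rep_real p
  have h1 : (1 / 9 : ℝ) * 10 ^ p = ((∑ i ∈ Finset.range p, 10 ^ i : ℕ) : ℝ) + 1 / 9 := by
    rw [h]; ring
  have h2 : ⌈(1 / 9 : ℝ) * 10 ^ p⌉₊ = (∑ i ∈ Finset.range p, 10 ^ i) + 1 := by
    rw [h1, Nat.ceil_eq_iff (by omega)]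
    rw [Nat.add_sub_cancel]
    push_cast
    constructor <;> linarith
  rw [h2, Nat.add_sub_cancel]

lemma W_base {p : ℕ} (hp : p.Prime) (h3 : p ≠ 3) : W (base 10) p = ∑ i ∈ Finset.range p, 10 ^ i := by
  rw [← W_amp hp h3]
  unfold W
  rw [base_ten, amp_ninth]

/-- At `β = 1 / 9` and at `x = 10` the values are the repunits.  For almost every amplitude (base ten)
and for almost every real base, the law holds in all residue classes with an error term that is
uniform in the modulus. -/
theorem result :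
    (∀ p : ℕ, p.Prime → p ≠ 3 → W (amp (1 / 9)) p = ∑ i ∈ Finset.range p, 10 ^ i ∧
      W (base 10) p = ∑ i ∈ Finset.range p, 10 ^ i) ∧
    (∀ᵐ β : ℝ, 0 < β → Law (amp β) (Real.exp Real.eulerMascheroniConstant / Real.log 10)) ∧
    (∀ᵐ x : ℝ, 1 < x → Law (base x) (Real.exp Real.eulerMascheroniConstant / Real.log x)) := by
  refine ⟨fun p hp h3 => ⟨W_amp hp h3, W_base hp h3⟩, ?_, ?_⟩
  · have hg : ∀ p : ℕ, |(fun _ : ℕ => (0 : ℝ)) p| ≤ (0 : ℝ) * (1 : ℝ) ^ p := by simp
    have h := Pool.Agent.Q43.UN.upt_ceil (α := ((10 : ℕ) : ℝ)) (κ := 1) (C := 0) (g := fun _ => 0)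
      (by norm_num) (by norm_num) (by norm_num) hg
      (Pool.Agent.TH888.R.near_base (b := 10) (by norm_num) (by norm_num) (by norm_num) hg)
    filter_upwards [h] with β hβ h0
    refine law_of (div_pos (Real.exp_pos _) (Real.log_pos (by norm_num))) ?_
    have h1 := hβ h0
    simp only [add_zero, Nat.cast_ofNat] at h1
    exact h1
  · have h := Pool.Agent.Q43.UN.upt_curve 1 (A := fun x => (x - 1)⁻¹)
      (ContDiffOn.inv (by fun_prop) fun x hx => by
        have h1 : 1 < x := by simpa using hx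
        exact (sub_pos.2 h1).ne')
      (fun x hx => inv_pos.2 (sub_pos.2 (by simpa using hx)))
    filter_upwards [h] with x hx h0
    refine law_of (div_pos (Real.exp_pos _) (Real.log_pos h0)) ?_
    have h1 := hx (by simpa using h0)
    have e : base x = fun p => ⌊(x - 1)⁻¹ * (x ^ p - 1 ^ p)⌋₊ := by
      funext p
      unfold base
      congr 1
      rw [one_pow, div_eq_inv_mul]
    rw [e]
    exact h1

end Pool.Agent.Results.MP_adea1b_nt.UniformProgressions
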